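import Pool.Agent.Work.MP_683e5e_co.Hedge.Main

set_option autoImplicit false

namespace Pool.Agent.Results.MP_683e5e_co.CliqueTuples

open SimpleGraph Pool.Agent.Work.MP_683e5e_co Pool.Agent.Work.MP_683e5e_co.Hedge

/-- Tuples of arbitrary finite graphs that are Ramsey equivalent to a tuple of cliques. -/
theorem result (p q : ℕ) (hp : 1 ≤ p) (hq : 1 ≤ q) (t : Fin q → ℕ) (ht : ∀ j, 3 ≤ t j)
    (n : Fin p → ℕ) (G : ∀ i, SimpleGraph (Fin (n i)))
    (h : ∀ (k : ℕ) (F : SimpleGraph (Fin k)),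
      (∀ C : F.EdgeLabeling (Fin p), ∃ i, (G i).IsContained (C.labelGraph i)) ↔
      (∀ C : F.EdgeLabeling (Fin q), ∃ j,
        (⊤ : SimpleGraph (Fin (t j))).IsContained (C.labelGraph j))) :
    ∃ σ : Fin q ↪ Fin p,
      (∀ j, ∃ S : Finset (Fin (n (σ j))), (G (σ j)).IsNClique (t j) S ∧
        (∀ u ∈ S, ∀ v, (G (σ j)).Adj u v → v ∈ S) ∧
        ∀ S' : Finset (Fin (n (σ j))), (G (σ j)).IsNClique (t j) S' → S' = S) ∧
      ∀ i, i ∉ Set.range σ → (G i).edgeSet.ncard = 1 := by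
  have : Nonempty (Fin p) := ⟨⟨0, hp⟩⟩
  have : Nonempty (Fin q) := ⟨⟨0, hq⟩⟩
  refine main (G := G) ht (of_fin fun k F => ?_)
  have := h k F
  simp only [contained_iff, sub_top_iff] at this
  rw [label_iff F fun i H => Sub (G i) H, label_iff F fun j H => HasK H (t j)] at this
  exact this.trans ⟨fun a χ _ => a χ, fun a χ => a χ fun _ _ _ => trivial⟩

end Pool.Agent.Results.MP_683e5e_co.CliqueTuples
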